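import Mathlib
set_option autoImplicit false
namespace Pool.Agent.Results.MP_cf13c7_al.Q1Yes
open FirstOrder Language
open scoped commutatorElement

/-- function symbols of the language of groups -/
inductive GrpFun : ℕ → Type
  | one : GrpFun 0
  | inv : GrpFun 1
  | mul : GrpFun 2

/-- the first-order language of groups -/
def L : Language := ⟨GrpFun, fun _ => Empty⟩

instance str (G : Type) [Group G] : L.Structure G where
  funMap
    | .one, _ => 1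
    | .inv, v => (v 0)⁻¹
    | .mul, v => v 0 * v 1
  RelMap r := r.elim

/-- radical class of groups -/
def Radical (K : (G : Type) → [Group G] → Prop) : Prop :=
  (∀ (G H : Type) [Group G] [Group H] (f : G →* H), Function.Surjective f → K G → K H) ∧
  (∀ (G : Type) [Group G] (N : Subgroup G), N.Normal → K G → K N) ∧
  ∀ (G : Type) [Group G], sSup {N : Subgroup G | N.Normal ∧ K N} = ⊤ → K G

/-- the class of all groups satisfying some set of sentences -/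
def Definable (K : (G : Type) → [Group G] → Prop) : Prop :=
  ∃ T : L.Theory, ∀ (G : Type) [Group G], K G ↔ G ⊨ T

/-- every finitely generated subgroup is finite -/
def LocFin (G : Type) [Group G] : Prop :=
  ∀ S : Finset G, Finite (Subgroup.closure (S : Set G))

section
variable {G : Type} [Group G]

def tw (x a b : G) : G := a * x * a⁻¹ * (b * x * b⁻¹)

def E (G : Type) [Group G] : Prop := ∀ x g : G, ∃ a b, ∀ h,
  (tw x a b)⁻¹ * g * (h * x * h⁻¹) = h * x * h⁻¹ * ((tw x a b)⁻¹ * g)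
def F (G : Type) [Group G] : Prop := ∀ x : G, ∃ a b c : G, x = tw ⁅x, a⁆ b c
def W (G : Type) [Group G] : Prop := ∀ x : G, ∃ a b c d : G, ∀ g h : G, ∃ r s t u : G,
  ⁅g, h * x * h⁻¹⁆ = tw ⁅g, tw x a b⁆ r s * tw ⁅g, tw x c d⁆ t u
def K (G : Type) [Group G] : Prop := E G ∧ F G ∧ W G

def tm {α : Type} (a b : L.Term α) : L.Term α := .func GrpFun.mul ![a, b]
def ti {α : Type} (a : L.Term α) : L.Term α := .func GrpFun.inv ![a]
def tc {α : Type} (a x : L.Term α) : L.Term α := tm (tm a x) (ti a)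
def tt {α : Type} (x a b : L.Term α) : L.Term α := tm (tc a x) (tc b x)
def tk {α : Type} (a b : L.Term α) : L.Term α := tm (tc a b) (ti b)

def sE : L.Sentence := ∀' ∀' ∃' ∃' ∀' (tm (tm (ti (tt &0 &2 &3)) &1) (tc &4 &0) ='
  tm (tc &4 &0) (tm (ti (tt &0 &2 &3)) &1))
def sF : L.Sentence := ∀' ∃' ∃' ∃' (&0 =' tt (tk &0 &1) &2 &3)
def sW : L.Sentence := ∀' ∃' ∃' ∃' ∃' ∀' ∀' ∃' ∃' ∃' ∃' (tk &5 (tc &6 &0) ='
  tm (tt (tk &5 (tt &0 &1 &2)) &7 &8) (tt (tk &5 (tt &0 &3 &4)) &9 &10))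

theorem defK : Definable K := ⟨{sE, sF, sW}, fun G _ => by
  simp only [Theory.model_insert_iff, Theory.model_singleton_iff, Sentence.Realize,
    Formula.Realize, sE, sF, sW, BoundedFormula.realize_all, BoundedFormula.realize_ex,
    BoundedFormula.realize_bdEqual]
  rfl⟩

theorem map_tw {H : Type} [Group H] (f : G →* H) (x a b : G) :
    f (tw x a b) = tw (f x) (f a) (f b) := by simp [tw]

theorem img {H : Type} [Group H] (f : G →* H) (hf : Function.Surjective f) (h : K G) : K H := by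
  refine ⟨fun x g => ?_, fun x => ?_, fun x => ?_⟩ <;> obtain ⟨x, rfl⟩ := hf x
  · obtain ⟨g, rfl⟩ := hf g
    obtain ⟨a, b, e⟩ := h.1 x g
    refine ⟨f a, f b, fun k => ?_⟩
    obtain ⟨k, rfl⟩ := hf k
    simpa only [map_mul, map_inv, map_tw] using congrArg f (e k)
  · obtain ⟨a, b, c, e⟩ := h.2.1 x
    exact ⟨f a, f b, f c, by simpa only [map_commutatorElement, map_tw] using congrArg f e⟩
  · obtain ⟨a, b, c, d, e⟩ := h.2.2 x
    refine ⟨f a, f b, f c, f d, fun g k => ?_⟩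
    obtain ⟨g, rfl⟩ := hf g
    obtain ⟨k, rfl⟩ := hf k
    obtain ⟨r, s, t, u, e⟩ := e g k
    exact ⟨f r, f s, f t, f u, by
      simpa only [map_mul, map_inv, map_commutatorElement, map_tw] using congrArg f e⟩

theorem prd {H : Type} [Group H] (h : K G) (h' : K H) : K (G × H) := by
  refine ⟨fun x g => ?_, fun x => ?_, fun x => ?_⟩
  · obtain ⟨a, b, e⟩ := h.1 x.1 g.1
    obtain ⟨a', b', e'⟩ := h'.1 x.2 g.2
    exact ⟨(a, a'), (b, b'), fun k => Prod.ext (e k.1) (e' k.2)⟩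
  · obtain ⟨a, b, c, e⟩ := h.2.1 x.1
    obtain ⟨a', b', c', e'⟩ := h'.2.1 x.2
    exact ⟨(a, a'), (b, b'), (c, c'), Prod.ext e e'⟩
  · obtain ⟨a, b, c, d, e⟩ := h.2.2 x.1
    obtain ⟨a', b', c', d', e'⟩ := h'.2.2 x.2
    refine ⟨(a, a'), (b, b'), (c, c'), (d, d'), fun g k => ?_⟩
    obtain ⟨r, s, t, u, e⟩ := e g.1 k.1
    obtain ⟨r', s', t', u', e'⟩ := e' g.2 k.2
    exact ⟨(r, r'), (s, s'), (t, t'), (u, u'), Prod.ext e e'⟩

def Xc (H : Subgroup G) (e : G) : Subgroup G := Subgroup.closure {z | ∃ a ∈ H, z = a * e * a⁻¹}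

theorem Xc_mem {H : Subgroup G} {a : G} (e : G) (ha : a ∈ H) : a * e * a⁻¹ ∈ Xc H e :=
  Subgroup.subset_closure ⟨a, ha, rfl⟩

theorem Xc_self (H : Subgroup G) (e : G) : e ∈ Xc H e := by simpa using Xc_mem e H.one_mem

theorem Xc_le (H : Subgroup G) {N : Subgroup G} [hN : N.Normal] {e : G} (he : e ∈ N) :
    Xc H e ≤ N := (Subgroup.closure_le _).2 (by rintro _ ⟨a, -, rfl⟩; exact hN.conj_mem e he a)

theorem Xc_cm {H : Subgroup G} {e c : G} (h : ∀ a ∈ H, Commute c (a * e * a⁻¹)) :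
    ∀ z ∈ Xc H e, Commute c z := fun z hz =>
  (Subgroup.mem_centralizer_singleton_iff.1 ((show Xc H e ≤ Subgroup.centralizer {c} from
    (Subgroup.closure_le _).2 (by
      rintro _ ⟨a, ha, rfl⟩; exact Subgroup.mem_centralizer_singleton_iff.2 (h a ha).symm)) hz)).symm

theorem cj {u g z : G} (h : Commute (u⁻¹ * g) z) : g * z * g⁻¹ = u * z * u⁻¹ := by
  calc _ = u * (u⁻¹ * g * z) * g⁻¹ := by group
    _ = _ := by rw [h.eq]; group

def DF (H P : Subgroup G) : Prop := ∀ g ∈ H, ∃ u ∈ P, ∀ z ∈ P, Commute (u⁻¹ * g) z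

theorem P1 {H : Subgroup G} (h : K H) {e : G} (he : e ∈ H) : DF H (Xc H e) := fun g hg => by
  obtain ⟨a, b, hh⟩ := h.1 ⟨e, he⟩ ⟨g, hg⟩
  exact ⟨_, mul_mem (Xc_mem e a.2) (Xc_mem e b.2),
    Xc_cm fun k hk => congrArg Subtype.val (hh ⟨k, hk⟩)⟩

theorem DF_cj {H P : Subgroup G} (h : DF H P) {g z : G} (hg : g ∈ H) (hz : z ∈ P) :
    g * z * g⁻¹ ∈ P := by
  obtain ⟨u, hu, e⟩ := h g hg
  rw [cj (e z hz)]
  exact mul_mem (mul_mem hu hz) (inv_mem hu)

theorem P2 {H P : Subgroup G} (h : K H) (hP : DF H P) {x : G} (hx : x ∈ H) (hx' : x ∈ P)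
    (hc : ∀ z ∈ P, Commute x z) : x = 1 := by
  obtain ⟨a, b, c, e⟩ := h.2.1 ⟨x, hx⟩
  obtain ⟨u, hu, e2⟩ := hP a a.2
  have : Commute x a := by
    simpa using (hc u hu).mul_right (e2 x hx').symm
  rw [show ⁅(⟨x, hx⟩ : H), a⁆ = 1 from commutatorElement_eq_one_iff_commute.2 (Subtype.ext this)] at e
  simpa [tw] using congrArg Subtype.val e

theorem P3 {H : Subgroup G} (h : K H) {y : G} (hy : y ∈ H) : ∃ p ∈ H, ∃ q ∈ H, ∀ g ∈ H,
    Commute g p → Commute g q → ∀ k ∈ H, Commute g (k * y * k⁻¹) := by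
  obtain ⟨a, b, c, d, e⟩ := h.2.2 ⟨y, hy⟩
  refine ⟨_, (tw ⟨y, hy⟩ a b).2, _, (tw ⟨y, hy⟩ c d).2, fun g hg h1 h2 k hk => ?_⟩
  obtain ⟨r, s, t, u, e⟩ := e ⟨g, hg⟩ ⟨k, hk⟩
  rw [show ⁅(⟨g, hg⟩ : H), tw ⟨y, hy⟩ a b⁆ = 1 from
    commutatorElement_eq_one_iff_commute.2 (Subtype.ext h1), show ⁅(⟨g, hg⟩ : H), tw ⟨y, hy⟩ c d⁆ = 1
    from commutatorElement_eq_one_iff_commute.2 (Subtype.ext h2)] at e
  exact congrArg Subtype.val (commutatorElement_eq_one_iff_commute.1 (e.trans (by simp [tw]))).eq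

theorem nrm (N : Subgroup G) (hN : N.Normal) (h : K G) : K N := by
  have hT : K (⊤ : Subgroup G) := img (Subgroup.topEquiv (G := G)).symm.toMonoidHom
    (Subgroup.topEquiv (G := G)).symm.surjective h
  have rp : ∀ (x : N) (a : G), ∃ a' : N, ∀ z ∈ Xc ⊤ x.1, a * z * a⁻¹ = a' * z * a'⁻¹ := fun x a => by
    obtain ⟨u, hu, e⟩ := P1 hT (e := x.1) trivial a trivial
    exact ⟨⟨u, Xc_le ⊤ x.2 hu⟩, fun z hz => cj (e z hz)⟩
  have rt : ∀ (x : N) (a b : G), ∃ a' b' : N, tw x.1 a b = (tw x a' b' : N) := fun x a b => by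
    obtain ⟨a', ha⟩ := rp x a
    obtain ⟨b', hb⟩ := rp x b
    exact ⟨a', b', by rw [tw, ha _ (Xc_self _ _), hb _ (Xc_self _ _)]; rfl⟩
  refine ⟨fun x g => ?_, fun x => ?_, fun x => ?_⟩
  · obtain ⟨a, b, e⟩ := h.1 x g
    obtain ⟨a, b, e2⟩ := rt x a b
    exact ⟨a, b, fun k => Subtype.ext (by have := e k; rwa [e2] at this)⟩
  · obtain ⟨a, b, c, e⟩ := h.2.1 x
    obtain ⟨a', ha⟩ := rp x a
    have : ⁅x.1, a⁆ = (⁅x, a'⁆ : N) := by
      calc _ = x.1 * (a * x.1⁻¹ * a⁻¹) := by rw [commutatorElement_def]; group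
        _ = x.1 * a'.1 * x.1⁻¹ * a'.1⁻¹ := by
          rw [ha _ (inv_mem (Xc_self _ _)), Subgroup.coe_inv]; group
    obtain ⟨b, c, e2⟩ := rt ⁅x, a'⁆ b c
    exact ⟨a', b, c, Subtype.ext (by rwa [this, e2] at e)⟩
  · obtain ⟨a, b, c, d, e⟩ := h.2.2 x
    obtain ⟨a, b, e1⟩ := rt x a b
    obtain ⟨c, d, e2⟩ := rt x c d
    refine ⟨a, b, c, d, fun g k => ?_⟩
    obtain ⟨r, s, t, u, e⟩ := e g k
    obtain ⟨r, s, e3⟩ := rt ⁅g, tw x a b⁆ r s
    obtain ⟨t, u, e4⟩ := rt ⁅g, tw x c d⁆ t u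
    rw [e1, e2] at e
    exact ⟨r, s, t, u, Subtype.ext (e.trans (congrArg₂ (· * ·) e3 e4))⟩

theorem nrm' {N P : Subgroup G} [hN : N.Normal] (h : K P) (hl : N ≤ P) : K N :=
  img (Subgroup.subgroupOfEquivOfLe hl).toMonoidHom (Subgroup.subgroupOfEquivOfLe hl).surjective
    (nrm _ inferInstance h)

theorem Xc_eq {H N : Subgroup G} [N.Normal] (h : K H) (hl : N ≤ H) {e : G} (he : e ∈ N) :
    Xc H e = Xc N e := by
  refine le_antisymm ((Subgroup.closure_le _).2 ?_)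
    (Subgroup.closure_mono fun _ ⟨a, ha, e⟩ => ⟨a, hl ha, e⟩)
  rintro _ ⟨a, ha, rfl⟩
  obtain ⟨u, hu, e2⟩ := P1 h (hl he) a ha
  rw [cj (e2 _ (Xc_self _ _))]
  exact Xc_mem e (Xc_le H he hu)

theorem cmc {H P : Subgroup G} (h : DF H P) {c g : G} (hg : g ∈ H) (hc : ∀ z ∈ P, Commute c z) :
    ∀ z ∈ P, Commute (g * c * g⁻¹) z := fun z hz => by
  have := (hc _ (DF_cj h (inv_mem hg) hz)).eq
  calc g * c * g⁻¹ * z = g * (c * (g⁻¹ * z * g⁻¹⁻¹)) * g⁻¹ := by group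
    _ = _ := by rw [this]; group

theorem split {M N : Subgroup G} [hM : M.Normal] [hN : N.Normal] (kM : K M) (kN : K N)
    {z m : G} (hz : z ∈ N) (hm : m ∈ M) : ∃ u ∈ M ⊓ N,
      (∀ p ∈ N, Commute m p → Commute u p) ∧ Commute (u⁻¹ * m) z := by
  have he : ⁅m, z⁆ ∈ M ⊓ N := Subgroup.commutator_le_inf M N
    (Subgroup.commutator_mem_commutator hm hz)
  have dM := P1 kM he.1
  have dN := P1 kN he.2
  rw [Xc_eq kM inf_le_left he] at dM
  rw [Xc_eq kN inf_le_right he] at dN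
  have hl := Xc_le (M ⊓ N) he
  have hs := Xc_self (M ⊓ N) ⁅m, z⁆
  generalize Xc (M ⊓ N) ⁅m, z⁆ = B at dM dN hl hs
  obtain ⟨u, hu, e⟩ := dM m hm
  have k : ∀ p ∈ N, ∀ w ∈ B, Commute ⁅u⁻¹ * m, p⁆ w := fun p hp w hw => by
    have := (e w hw).mul_left (cmc dN hp (fun z hz => (e z hz).inv_left) w hw)
    rwa [← mul_assoc, ← mul_assoc] at this
  refine ⟨u, hl hu, fun p hp h => ?_, ?_⟩
  · have h1 : ⁅u⁻¹ * m, p⁆ = u⁻¹ * (p * u * p⁻¹) := by
      calc _ = u⁻¹ * (m * p) * m⁻¹ * u * p⁻¹ := by rw [commutatorElement_def]; group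
        _ = _ := by rw [h.eq]; group
    have h2 : ⁅u⁻¹ * m, p⁆ ∈ B := h1 ▸ mul_mem (inv_mem hu) (DF_cj dN hp hu)
    have h3 := P2 kN dN (hl h2).2 h2 (k p hp)
    rw [h1, inv_mul_eq_one, eq_mul_inv_iff_mul_eq] at h3
    exact h3
  · have h2 : ⁅u⁻¹ * m, z⁆ ∈ B := by
      rw [show ⁅u⁻¹ * m, z⁆ = u⁻¹ * ⁅m, z⁆ * (z * u * z⁻¹) by simp only [commutatorElement_def]; group]
      exact mul_mem (mul_mem (inv_mem hu) hs) (DF_cj dN hz hu)
    exact commutatorElement_eq_one_iff_commute.1 (P2 kN dN (hl h2).2 h2 (k z hz))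

theorem key {M N : Subgroup G} [hM : M.Normal] [hN : N.Normal] (kM : K M) (kN : K N)
    {y : G} (hy : y ∈ N) : DF M (Xc N y) := fun m hm => by
  obtain ⟨p, hp, q, hq, e⟩ := P3 kN hy
  obtain ⟨u, hu, -, h1⟩ := split kM kN hp hm
  have hm1 := M.mul_mem (M.inv_mem hu.1) hm
  obtain ⟨v, hv, h2, h3⟩ := split kM kN hq hm1
  have hm2 := M.mul_mem (M.inv_mem hv.1) hm1
  have h4 := (h2 p hp h1).inv_left.mul_left h1
  have h5 : ∀ z ∈ Xc N y, Commute (v⁻¹ * (u⁻¹ * m)) z := Xc_cm fun k hk => by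
    obtain ⟨w, hw, h6, h7⟩ := split kM kN (hN.conj_mem y hy k) hm2
    simpa using (e w hw.2 (h6 p hp h4) (h6 q hq h3) k hk).mul_left h7
  obtain ⟨w, hw, h6⟩ := P1 kN hy (u * v) (N.mul_mem hu.2 hv.2)
  exact ⟨w, hw, fun z hz => by simpa [mul_assoc] using (h6 z hz).mul_left (h5 z hz)⟩

theorem DF_n {P : Subgroup G} (h : DF ⊤ P) : P.Normal := ⟨fun _ hz _ => DF_cj h trivial hz⟩

theorem join {P Q : Subgroup G} (kP : K P) (kQ : K Q) (dP : DF ⊤ P) (dQ : DF ⊤ Q) :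
    K (P ⊔ Q : Subgroup G) ∧ DF ⊤ (P ⊔ Q) := by
  have := DF_n dP
  have nQ := DF_n dQ
  let R := Q ⊓ Subgroup.centralizer (P : Set G)
  have hR : ∀ a ∈ P, ∀ b ∈ R, Commute a b := fun a ha b hb => hb.2 a ha
  have sp : ∀ v ∈ Q, ∃ u ∈ P, u⁻¹ * v ∈ R := fun v hv => by
    obtain ⟨u, hu, e⟩ := dP v trivial
    refine ⟨u, hu, Q.mul_mem (Q.inv_mem ?_) hv, fun z hz => (e z hz).symm⟩
    obtain ⟨a, b, c, e2⟩ := kP.2.1 ⟨u, hu⟩
    have h1 : ⁅u, a.1⁆ ∈ Q := by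
      rw [commutatorElement_def, ← cj (e a a.2), mul_assoc, mul_assoc, ← mul_assoc a.1]
      exact mul_mem hv (nQ.conj_mem _ (inv_mem hv) _)
    rw [show u = tw ⁅u, a.1⁆ b.1 c.1 from congrArg Subtype.val e2]
    exact mul_mem (nQ.conj_mem _ h1 _) (nQ.conj_mem _ h1 _)
  have e1 : P ⊔ Q = P ⊔ R := le_antisymm (sup_le le_sup_left fun v hv => by
    obtain ⟨u, hu, h⟩ := sp v hv
    simpa using Subgroup.mul_mem_sup hu h) (sup_le_sup_left inf_le_left _)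
  rw [e1]
  constructor
  · let f := MonoidHom.noncommCoprod P.subtype R.subtype fun a b => hR a a.2 b b.2
    have : f.range = P ⊔ R := by simp [f, MonoidHom.noncommCoprod_range]
    rw [← this]
    exact img f.rangeRestrict f.rangeRestrict_surjective (prd kP (nrm' kQ inf_le_left))
  · intro g _
    obtain ⟨u, hu, h1⟩ := dP g trivial
    obtain ⟨v, hv, h2⟩ := dQ g trivial
    obtain ⟨w, hw, h3⟩ := sp v hv
    refine ⟨u * (w⁻¹ * v), Subgroup.mul_mem_sup hu h3, fun z hz => ?_⟩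
    refine (Subgroup.mem_centralizer_singleton_iff.1 ((sup_le (fun z hz => ?_) (fun z hz => ?_) :
      P ⊔ R ≤ Subgroup.centralizer {(u * (w⁻¹ * v))⁻¹ * g}) hz)).symm <;>
      refine Subgroup.mem_centralizer_singleton_iff.2 (Commute.symm ?_)
    · simpa [mul_assoc] using (hR z hz _ h3).symm.inv_left.mul_left (h1 z hz)
    · have h4 := (hR _ (mul_mem (inv_mem hu) (inv_mem hw)) _ h3).eq
      have h5 := hR _ (mul_mem (inv_mem hu) hw) _ hz
      have : (u * (w⁻¹ * v))⁻¹ * g = u⁻¹ * w * (v⁻¹ * g) := by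
        have h6 := (hR _ hu _ h3).inv_inv.eq
        have h7 := (hR _ hw _ h3).inv_right.eq
        calc _ = (w⁻¹ * v)⁻¹ * u⁻¹ * g := by group
          _ = u⁻¹ * (w⁻¹ * ((w * (w⁻¹ * v)⁻¹))) * g := by rw [← h6]; group
          _ = u⁻¹ * (w * (w * (w⁻¹ * v))⁻¹) * g := by
            rw [(hR _ hw _ h3).eq, mul_inv_rev (w⁻¹ * v), ← mul_assoc w w⁻¹]; group
          _ = _ := by group
      rw [this]
      exact h5.mul_left (h2 z hz.1)

theorem gen (h : sSup {N : Subgroup G | N.Normal ∧ K N} = ⊤) : K G := by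
  have ind : ∀ p : G → Prop, p 1 → (∀ a b, p a → p b → p (a * b)) →
      (∀ N : Subgroup G, N.Normal → K N → ∀ a ∈ N, p a) → ∀ a, p a := fun p h1 h2 h3 a => by
    have : a ∈ ⨆ N : {N : Subgroup G | N.Normal ∧ K N}, N.1 := by
      rw [← sSup_eq_iSup', h]; trivial
    exact Subgroup.iSup_induction _ (C := p) this (fun N => h3 N N.2.1 N.2.2) h1 h2
  have k0 : K (⊥ : Subgroup G) := ⟨fun _ _ => ⟨1, 1, fun _ => Subsingleton.elim _ _⟩,
    fun _ => ⟨1, 1, 1, Subsingleton.elim _ _⟩,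
    fun _ => ⟨1, 1, 1, 1, fun _ _ => ⟨1, 1, 1, 1, Subsingleton.elim _ _⟩⟩⟩
  have loc := ind (fun x => ∃ P : Subgroup G, x ∈ P ∧ K P ∧ DF ⊤ P)
    ⟨⊥, one_mem _, k0, fun g _ => ⟨1, one_mem _, fun z hz => by
      rw [Subgroup.mem_bot.1 hz]; exact Commute.one_right _⟩⟩
    (fun a b ⟨P, a1, a2, a3⟩ ⟨Q, b1, b2, b3⟩ =>
      ⟨P ⊔ Q, Subgroup.mul_mem_sup a1 b1, join a2 b2 a3 b3⟩) fun N hN kN y hy => by
    have d : DF ⊤ (Xc N y) := fun g _ => ind
      (fun g => ∃ u ∈ Xc N y, ∀ z ∈ Xc N y, Commute (u⁻¹ * g) z)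
      ⟨1, one_mem _, fun z _ => by simp⟩ (fun a b ⟨u, hu, h1⟩ ⟨v, hv, h2⟩ =>
        ⟨u * v, mul_mem hu hv, fun z hz => by
          have := ((h1 v hv).eq)
          rw [show (u * v)⁻¹ * (a * b) = v⁻¹ * (u⁻¹ * a * v) * (v⁻¹ * b) by group, this]
          simpa using (h1 z hz).mul_left (h2 z hz)⟩) (fun M hM kM => key kM kN hy) g
    have := DF_n d
    exact ⟨_, Xc_self N y, nrm' kN (Xc_le N hy), d⟩
  refine ⟨fun x g => ?_, fun x => ?_, fun x => ?_⟩ <;> obtain ⟨P, hx, kP, dP⟩ := loc x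
  · obtain ⟨u, hu, e⟩ := dP g trivial
    obtain ⟨a, b, e1⟩ := kP.1 ⟨x, hx⟩ ⟨u, hu⟩
    refine ⟨a, b, fun k => ?_⟩
    obtain ⟨v, hv, e2⟩ := dP k trivial
    have h1 : Commute ((tw x a.1 b.1)⁻¹ * u) (v * x * v⁻¹) := congrArg Subtype.val (e1 ⟨v, hv⟩)
    rw [cj (e2 x hx)]
    have := h1.mul_left (e _ (mul_mem (mul_mem hv hx) (inv_mem hv)))
    rw [mul_assoc, mul_inv_cancel_left] at this
    exact this
  · obtain ⟨a, b, c, e⟩ := kP.2.1 ⟨x, hx⟩
    exact ⟨a, b, c, congrArg Subtype.val e⟩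
  · obtain ⟨a, b, c, d, e⟩ := kP.2.2 ⟨x, hx⟩
    refine ⟨a, b, c, d, fun g k => ?_⟩
    obtain ⟨u, hu, e1⟩ := dP g trivial
    obtain ⟨v, hv, e2⟩ := dP k trivial
    obtain ⟨r, s, t, w, e⟩ := e ⟨u, hu⟩ ⟨v, hv⟩
    have h1 : ∀ z : P, ⁅g, z.1⁆ = ⁅u, z.1⁆ := fun z => by
      rw [commutatorElement_def, cj (e1 z z.2), commutatorElement_def]
    refine ⟨r, s, t, w, ?_⟩
    rw [cj (e2 x hx)]
    exact (h1 (⟨v, hv⟩ * ⟨x, hx⟩ * ⟨v, hv⟩⁻¹)).trans ((congrArg Subtype.val e).trans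
      (congrArg₂ (fun y z => tw y r.1 s.1 * tw z t.1 w.1) (h1 (tw ⟨x, hx⟩ a b)).symm
        (h1 (tw ⟨x, hx⟩ c d)).symm))
end

abbrev k := AlgebraicClosure (RatFunc (ZMod 2))
abbrev S := Matrix.SpecialLinearGroup (Fin 2) k

theorem h2 : (2 : k) = 0 := CharP.cast_eq_zero k 2

noncomputable def mk (a b c d : k) (h : a * d - b * c = 1) : S := ⟨!![a, b; c, d], by simpa [Matrix.det_fin_two]⟩

theorem dt (A : S) : A 0 0 * A 1 1 - A 0 1 * A 1 0 = 1 := by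
  rw [← Matrix.det_fin_two]; exact A.2

theorem sx {A B : S} (a : A 0 0 = B 0 0) (b : A 0 1 = B 0 1) (c : A 1 0 = B 1 0)
    (d : A 1 1 = B 1 1) : A = B := by
  ext i j; fin_cases i <;> fin_cases j <;> assumption

theorem one_of {A : S} (b : A 0 1 = 0) (c : A 1 0 = 0) (d : A 0 0 = A 1 1) : A = 1 := by
  have h := dt A
  rw [b, ← d] at h
  have : A 0 0 = 1 := by
    have : (A 0 0 - 1) ^ 2 = 0 := by linear_combination h + (1 - A 0 0) * h2
    exact sub_eq_zero.1 (pow_eq_zero_iff two_ne_zero |>.1 this)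
  exact sx this b c (d ▸ this)

theorem ma (A B : S) (i j : Fin 2) : (A * B) i j = A i 0 * B 0 j + A i 1 * B 1 j := by
  simp [Matrix.mul_apply, Fin.sum_univ_two]

noncomputable def C (t : k) : S := mk 0 1 1 t (by linear_combination -h2)

theorem cjC (A : S) (h : A ≠ 1) : IsConj (C (A 0 0 + A 1 1)) A := by
  obtain ⟨x, y, e⟩ : ∃ x y : k, x * (A 1 0 * x + A 1 1 * y) - (A 0 0 * x + A 0 1 * y) * y ≠ 0 := by
    by_contra hh
    push Not at hh
    have c := hh 1 0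
    have b := hh 0 1
    have d := hh 1 1
    exact h (one_of (by linear_combination -b) (by linear_combination c)
      (by linear_combination b + c - d))
  obtain ⟨s, hs⟩ := IsAlgClosed.exists_pow_nat_eq (x * (A 1 0 * x + A 1 1 * y) -
    (A 0 0 * x + A 0 1 * y) * y)⁻¹ two_pos
  have hs := (congrArg (· * _) hs).trans (inv_mul_cancel₀ e)
  beta_reduce at hs
  refine isConj_iff.2 ⟨mk (s * x) (s * (A 0 0 * x + A 0 1 * y)) (s * y) (s * (A 1 0 * x + A 1 1 * y))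
    (by linear_combination hs), mul_inv_eq_iff_eq_mul.2 ?_⟩
  have d := dt A
  apply sx <;> simp only [ma, mk, C] <;> simp
  · ring
  · linear_combination s * x * d + s * x * h2
  · ring
  · linear_combination s * y * d + s * y * h2

theorem cjt {A B : S} (h : A ≠ 1) (h' : B ≠ 1) (e : A 0 0 + A 1 1 = B 0 0 + B 1 1) : IsConj A B :=
  (cjC A h).symm.trans (e ▸ cjC B h')

theorem two1 (x : S) : ∃ a b, 1 = tw x a b := by
  by_cases h : x = 1
  · exact ⟨1, 1, by simp [tw, h]⟩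
  obtain ⟨b, e⟩ := isConj_iff.1 (cjt h (inv_ne_one.2 h) (by
    simp [Matrix.SpecialLinearGroup.SL2_inv_expl, add_comm]))
  exact ⟨1, b, by simp [tw, e]⟩

open Polynomial in
theorem two (x g : S) (h : x ≠ 1) : ∃ a b, g = tw x a b := by
  classical
  by_cases hg : g = 1
  · exact hg ▸ two1 x
  obtain ⟨t, ht⟩ : ∃ t, x 0 0 + x 1 1 = t := ⟨_, rfl⟩
  obtain ⟨a, ha⟩ := Infinite.exists_notMem_finset ({t, 1} : Finset k)
  simp only [Finset.mem_insert, Finset.mem_singleton, not_or] at ha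
  obtain ⟨s, hs⟩ : ∃ s, s = g 0 0 + g 1 1 + t ^ 2 + t * a := ⟨_, rfl⟩
  obtain ⟨b, hb⟩ := IsAlgClosed.exists_root (X ^ 2 + Polynomial.C s * X +
    Polynomial.C (1 + a * (t + a))) (by
      have : (X ^ 2 + Polynomial.C s * X + Polynomial.C (1 + a * (t + a))).degree = 2 := by
        compute_degree!
      rw [this]; decide)
  simp only [IsRoot, eval_add, eval_pow, eval_X, eval_mul, eval_C] at hb
  let y := mk a b (s + b) (t + a) (by linear_combination -hb + (a * (t + a)) * h2)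
  have y1 : y ≠ 1 := fun e => ha.2 (congrArg (fun A : S => A 0 0) e)
  have c1 : C t ≠ 1 := fun e => zero_ne_one (congrArg (fun A : S => A 0 0) e)
  have z1 : C t * y ≠ 1 := fun e => ha.1 (by
    have := congrArg (fun A : S => A 0 1) e
    simp [ma, C, y, mk] at this
    linear_combination this - t * h2)
  obtain ⟨p, hp⟩ := isConj_iff.1 (cjt z1 hg (by
    simp [ma, C, y, mk]
    linear_combination hs + (b + t ^ 2 + t * a) * h2))
  obtain ⟨q, hq⟩ := isConj_iff.1 (cjt h c1 (by simp [ht, C, mk]))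
  obtain ⟨r, hr⟩ := isConj_iff.1 (cjt h y1 (by
    simp [ht, y, mk]
    linear_combination -a * h2))
  exact ⟨p * q, p * r, by rw [← hp, ← hq, ← hr, tw]; group⟩

noncomputable def p0 : S := mk 1 1 0 1 (by ring)
noncomputable def q0 : S := mk 1 0 1 1 (by ring)

theorem pq (g : S) (h : g ≠ 1) : ⁅g, p0⁆ ≠ 1 ∨ ⁅g, q0⁆ ≠ 1 := by
  by_contra hh
  push Not at hh
  have h1 := commutatorElement_eq_one_iff_mul_comm.1 hh.1
  have h3 := commutatorElement_eq_one_iff_mul_comm.1 hh.2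
  have a := congrArg (fun A : S => A 0 0) h1
  have b := congrArg (fun A : S => A 0 1) h1
  have c := congrArg (fun A : S => A 0 0) h3
  simp [ma, p0, q0, mk] at a b c
  exact h (one_of c a (by linear_combination b))

theorem KS : K S := by
  refine ⟨fun x g => ?_, fun x => ?_, fun x => ?_⟩ <;> by_cases h : x = 1
  · exact ⟨1, 1, fun _ => by simp [h]⟩
  · obtain ⟨a, b, e⟩ := two x g h
    exact ⟨a, b, fun _ => by simp [← e]⟩
  · exact ⟨1, 1, 1, by simp [h, tw]⟩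
  · rcases pq x h with e | e <;> exact ⟨_, two _ x e⟩
  · exact ⟨1, 1, 1, 1, fun _ _ => ⟨1, 1, 1, 1, by simp [h, tw]⟩⟩
  · obtain ⟨a, b, e1⟩ := two x p0 h
    obtain ⟨c, d, e2⟩ := two x q0 h
    refine ⟨a, b, c, d, fun g l => ?_⟩
    rw [← e1, ← e2]
    by_cases hg : g = 1
    · exact ⟨1, 1, 1, 1, by simp [hg, tw]⟩
    rcases pq g hg with e | e
    · obtain ⟨r, s, e3⟩ := two _ ⁅g, l * x * l⁻¹⁆ e
      obtain ⟨t, u, e4⟩ := two1 ⁅g, q0⁆
      exact ⟨r, s, t, u, by rw [← e3, ← e4, mul_one]⟩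
    · obtain ⟨r, s, e3⟩ := two _ ⁅g, l * x * l⁻¹⁆ e
      obtain ⟨t, u, e4⟩ := two1 ⁅g, p0⁆
      exact ⟨t, u, r, s, by rw [← e3, ← e4, one_mul]⟩

theorem nlf : ¬ LocFin S := fun h => by
  let t : k := algebraMap (RatFunc (ZMod 2)) k RatFunc.X
  have t0 : t ≠ 0 := (map_ne_zero _).2 RatFunc.X_ne_zero
  let g := mk t 0 0 t⁻¹ (by simp [t0])
  have hp : ∀ n, (g ^ n) 0 0 = t ^ n := fun n => by
    induction n with
    | zero => simp
    | succ n ih => rw [pow_succ, ma, ih, pow_succ]; simp [g, mk]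
  have := h {g}
  rw [Finset.coe_singleton, ← Subgroup.zpowers_eq_closure] at this
  obtain ⟨n, hn, e⟩ := (finite_zpowers.1 this).exists_pow_eq_one
  have h1 := hp n
  rw [e, ← map_pow] at h1
  have h3 : (RatFunc.X : RatFunc (ZMod 2)) ^ n = 1 :=
    (algebraMap _ k).injective (by rw [← h1]; simp)
  rw [← RatFunc.algebraMap_X, ← map_pow, ← map_one (algebraMap (Polynomial (ZMod 2)) _)] at h3
  have := congrArg Polynomial.natDegree (RatFunc.algebraMap_injective _ h3)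
  simp at this
  omega

theorem result : ∃ K : (G : Type) → [Group G] → Prop, Radical K ∧ Definable K ∧
    (∃ (G : Type) (_ : Group G), K G ∧ ¬ LocFin G) ∧ ∃ (G : Type) (_ : Group G), ¬ K G :=
  ⟨K, ⟨fun _ _ _ _ => img, fun _ _ => nrm, fun _ _ => gen⟩, defK, ⟨S, _, KS, nlf⟩,
    Multiplicative ℤ, inferInstance, fun h => by
      obtain ⟨a, b, c, e⟩ := h.2.1 (Multiplicative.ofAdd 1)
      rw [commutatorElement_eq_one_iff_mul_comm.2 (mul_comm _ _)] at e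
      simp [tw] at e⟩

end Pool.Agent.Results.MP_cf13c7_al.Q1Yes
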